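import Pool.Agent.J4H23.VD.Stm
import Pool.Agent.J4H23.SB.Main
import Pool.Agent.J4H63.DB.Transfer

set_option autoImplicit false

namespace Pool.Agent.J4H23.VD

open Finset Pool.Agent.NPC Pool.Agent.H49R2.PC Pool.Agent.J4H63.DB Pool.Agent.J4H23.SB

/-- **(A)**, from its pieces -/
theorem a_main (hAPL : S_APL) (hACO : S_ACO) (hAIN : S_AIN) (hAPR : S_APR) (l : ℝ) (k N : ℕ)
    (hl : 0 < l) (hl1 : l ≤ 1) (hN : 1 ≤ N) :
    ∃ (F : WG → List ℕ) (A : List Bool → List Bool), PolyTime A ∧ (∀ x, A (bits x) = bits (F x)) ∧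
      ∃ m₀ : ℕ, ∀ m ≥ m₀, ∀ q : Fin m × Fin m → ℝ, (∀ e, l ≤ q e ∧ q e ≤ 1) →
        1 - 1 / (m : ℝ) ^ k ≤ pr q (fun X => ∀ Y : Finset (Fin m × Fin m), X ⊆ Y →
          ∀ w : Fin m → ℕ, Appr (1 + 1 / N) (wgF m Y w) (F (wgF m Y w))) := by
  obtain ⟨C, m₀, h⟩ := hAPR l k hl hl1
  obtain ⟨A, hA, hAF⟩ := exists_polyTime (hAPL (C * (N + 1))) []
  refine ⟨alg (C * (N + 1)), A, hA, hAF, m₀, fun m hm q hq => (h m hm q hq).trans ?_⟩
  refine pr_mono (fun e => hl.le.trans (hq e).1) (fun e => (hq e).2) fun X hX Y hXY w => ?_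
  obtain ⟨h1, h2, h3⟩ := hAIN m Y w (C * m.size) fun B hB => hX B fun u hu v hv huv hX' =>
    hB u hu v hv huv (hXY hX')
  refine hACO _ (C * m.size) N _ h1 hN ?_ h3
  rw [h2]
  apply le_of_eq
  ring

/-- the deterministic form -/
theorem a_det (hAPL : S_APL) (hACO : S_ACO) (C N : ℕ) (hN : 1 ≤ N) :
    ∃ (F : WG → List ℕ) (A : List Bool → List Bool), PolyTime A ∧ (∀ x, A (bits x) = bits (F x)) ∧
      ∀ G : WG, IsWG G → (∀ I : Finset ℕ, I ⊆ (vs G).toFinset →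
        (∀ e ∈ G.2, ¬ (e.1 ∈ I ∧ e.2 ∈ I)) → I.card ≤ C * G.1.length.size) →
        Appr (1 + 1 / N) G (F G) := by
  obtain ⟨A, hA, hAF⟩ := exists_polyTime (hAPL (C * (N + 1))) []
  refine ⟨alg (C * (N + 1)), A, hA, hAF, fun G hG h => ?_⟩
  refine hACO G (C * G.1.length.size) N _ hG hN ?_ h
  apply le_of_eq
  ring

end Pool.Agent.J4H23.VD
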