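import Pool.Agent.J4H23.VD.Btc
import Pool.Agent.J4H23.NH.Ctg
import Pool.Agent.J4H23.SB.NhMain

set_option autoImplicit false

namespace Pool.Agent.J4H23.VD

open Finset Pool.Agent.NPC Pool.Agent.H49R2.PC Pool.Agent.J4H63.DB Pool.Agent.J4H23.SB

theorem st_spec (G : WG) : 100 * (G.1.length * G.1.length) ≤ 2 ^ st G ∧
    2 ^ st G ≤ 200 * (G.1.length + 1) ^ 2 := by
  unfold st
  set n := G.1.length with hn
  have h1 := Nat.lt_size_self (100 * (n + 1) ^ 2)
  have h2 : 0 < (100 * (n + 1) ^ 2).size := Nat.size_pos.2 (by positivity)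
  have h3 : 2 ^ ((100 * (n + 1) ^ 2).size - 1) ≤ 100 * (n + 1) ^ 2 := by
    rw [← Nat.lt_size]
    omega
  constructor
  · nlinarith
  · have h4 : 2 ^ (100 * (n + 1) ^ 2).size = 2 * 2 ^ ((100 * (n + 1) ^ 2).size - 1) := by
      rw [← pow_succ']
      congr 1
      omega
    omega

/-- **(B)**, from its pieces -/
theorem b_main (hBPL : S_BPL) (hBID : S_BID) (k : ℕ) (hk : 1 ≤ k) (c : ℝ) (hc : 0 ≤ c)
    (h : SmoothedApprox k c) : RandApprox c := by
  obtain ⟨F, A, p, hA, hAF, hF⟩ := h
  have hFP : NPC.Poly F := poly_of_code [] hA hAF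
  obtain ⟨A', hA', hAF'⟩ := exists_polyTime (hBPL F p k hFP) []
  -- the length of the random string
  obtain ⟨r1, hr1⟩ := H628R3.RO.uPoly_le (UPoly.length (Poly.fst (Poly.id (α := WG))))
  have hsum : NPC.Poly (fun G : WG => (wl G).sum) := by
    unfold wl
    exact Poly.sum (NPC.Poly.map (F := fun (_ : WG) (p : ℕ × ℕ) => p.2) (Poly.fst Poly.id)
      (Poly.snd (Poly.snd Poly.id)))
  obtain ⟨r2, hr2⟩ : ∃ r2 : Polynomial ℕ, ∀ G : WG, (wl G).sum.size ≤ r2.eval (bits G).length := by
    obtain ⟨r2, hr2⟩ := H628R3.RO.uPoly_le (UPoly.length (Poly.natBits hsum))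
    exact ⟨r2, fun G => by
      have := hr2 G
      rw [Nat.size_eq_bits_len] at this
      exact this⟩
  set MM : Polynomial ℕ := (Polynomial.C 200 * (r1 + Polynomial.C 1) ^ 2) ^ k with hMM
  refine ⟨red F p k, A', MM ^ 3 + Polynomial.C 2 * p.comp (MM + r2), hA', hAF', ?_⟩
  intro G hG
  set s := st G with hs
  set m := 2 ^ (k * s) with hm
  set b := (wl G).sum.size with hb
  set x := (bits G).length with hx
  set P := p.eval (m + b) with hP
  obtain ⟨hs1, hs2⟩ := st_spec G
  rw [← hs] at hs1 hs2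
  have hn : G.1.length ≤ r1.eval x := hr1 G
  have hmm : 2 ^ s ≤ m := Nat.pow_le_pow_right (by norm_num) (Nat.le_mul_of_pos_left _ hk)
  have hnm : G.1.length ≤ m := by
    rcases Nat.eq_zero_or_pos G.1.length with h0 | h0
    · rw [h0]; exact Nat.zero_le _
    · nlinarith
  have hmx : m ≤ MM.eval x := by
    rw [hm, hMM, mul_comm k s, pow_mul]
    simp only [Polynomial.eval_pow, Polynomial.eval_mul, Polynomial.eval_add, Polynomial.eval_C]
    exact Nat.pow_le_pow_left (hs2.trans (Nat.mul_le_mul_left _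
      (Nat.pow_le_pow_left (by omega) 2))) k
  have hsm : s ≤ m := (Nat.lt_two_pow_self).le.trans hmm
  have hl : m * m * s ≤ MM.eval x ^ 3 := by
    calc m * m * s ≤ MM.eval x * MM.eval x * MM.eval x :=
          Nat.mul_le_mul (Nat.mul_le_mul hmx hmx) (hsm.trans hmx)
      _ = _ := by ring
  have hPx : P ≤ (p.comp (MM + r2)).eval x := by
    rw [Polynomial.eval_comp]
    refine eval_mono p ?_
    rw [Polynomial.eval_add]
    exact Nat.add_le_add hmx (hr2 G)
  set q := (MM ^ 3 + Polynomial.C 2 * p.comp (MM + r2)).eval x with hq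
  have hlen : m * m * s + P + P ≤ q := by
    rw [hq]
    simp only [Polynomial.eval_add, Polynomial.eval_mul, Polynomial.eval_C, Polynomial.eval_pow]
    omega
  have hw : ∀ y ∈ wl G, y < 2 ^ b := fun y hy =>
    lt_of_le_of_lt (List.single_le_sum (by simp) y hy) (Nat.lt_size_self _)
  have h1 := hF s m hm (em G) b (wl G) hw
  have h3 := t_BTC m s G.1.length hnm
  set T : List Bool → Prop := fun r => ∃ u v : ℕ, u < G.1.length ∧ v < G.1.length ∧
    nz m s r u v = true with hT
  have h4 : 100 * {r : List Bool | r.length = m * m * s ∧ T r}.ncard ≤ 2 ^ (m * m * s) := by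
    have h7 : 100 * {r : List Bool | r.length = m * m * s ∧ T r}.ncard * 2 ^ s ≤
        2 ^ (m * m * s) * 2 ^ s := by
      calc 100 * {r : List Bool | r.length = m * m * s ∧ T r}.ncard * 2 ^ s
          = 100 * ({r : List Bool | r.length = m * m * s ∧ T r}.ncard * 2 ^ s) := by ring
        _ ≤ 100 * (G.1.length * G.1.length * 2 ^ (m * m * s)) := Nat.mul_le_mul_left _ h3
        _ = 100 * (G.1.length * G.1.length) * 2 ^ (m * m * s) := by ring
        _ ≤ 2 ^ s * 2 ^ (m * m * s) := Nat.mul_le_mul_right _ hs1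
        _ = 2 ^ (m * m * s) * 2 ^ s := by ring
    exact Nat.le_of_mul_le_mul_right h7 (by positivity)
  have h2 : 9 * 2 ^ (m * m * s + P) ≤ 10 * {x : List Bool × List Bool |
      x.1.length = m * m * s ∧ x.2.length = P ∧ True}.ncard := by
    have e : {x : List Bool × List Bool | x.1.length = m * m * s ∧ x.2.length = P ∧ True} =
        {r : List Bool | r.length = m * m * s} ×ˢ {r : List Bool | r.length = P} := by
      ext x
      simp
    have e2 : (2 : ℕ) ^ (m * m * s) * 2 ^ P = 2 ^ (m * m * s + P) := (pow_add _ _ _).symm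
    rw [e, Set.ncard_prod, ncard_strings, ncard_strings, e2]
    exact Nat.mul_le_mul (by norm_num) le_rfl
  have h5 := NH.t_CTG (m * m * s) P q
    (fun x y => Appr c (wn m (em G) (wl G) s x) (F (wn m (em G) (wl G) s x, y)))
    (fun _ _ => True) T hlen h1 h2 h4
  refine h5.trans (Nat.mul_le_mul_left _ (Set.ncard_le_ncard ?_
    ((finite_strings q).subset fun r hr => hr.1)))
  rintro w ⟨hw1, hA1, -, hT1⟩
  refine ⟨hw1, ?_⟩
  have hav : ∀ u v : ℕ, u < G.1.length → v < G.1.length →
      nz m s (w.take (m * m * s)) u v = false := by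
    intro u v hu hv
    by_contra hcon
    exact hT1 ⟨u, v, hu, hv, by simpa using hcon⟩
  exact hBID G m s _ c _ hG hnm hc hav hA1

end Pool.Agent.J4H23.VD
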