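import Pool.Agent.J4H23.VD.Stm
import Pool.Agent.J4H23.NH.Tch

set_option autoImplicit false

namespace Pool.Agent.J4H23.VD

open Finset Pool.Agent.NPC Pool.Agent.H49R2.PC Pool.Agent.J4H63.DB Pool.Agent.J4H23.SB

theorem t_BTC : S_BTC := by
  classical
  intro m s n hn
  set K : Finset (ℕ × ℕ) := range n ×ˢ range n with hK
  have hKc : K.card ≤ n * n := by
    rw [hK, card_product, card_range]
  have hsub : {r : List Bool | r.length = m * m * s ∧
      ∃ u v : ℕ, u < n ∧ v < n ∧ nz m s r u v = true} ⊆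
      ⋃ e ∈ K, {r : List Bool | r.length = m * m * s ∧ nz m s r e.1 e.2 = true} := by
    rintro r ⟨h1, u, v, hu, hv, h2⟩
    simp only [Set.mem_iUnion]
    refine ⟨(u, v), ?_, h1, h2⟩
    rw [hK, mem_product, mem_range, mem_range]
    exact ⟨hu, hv⟩
  have hfin : ∀ e : ℕ × ℕ,
      {r : List Bool | r.length = m * m * s ∧ nz m s r e.1 e.2 = true}.Finite := fun e =>
    (finite_strings _).subset fun _ hr => hr.1
  have h1 : {r : List Bool | r.length = m * m * s ∧
      ∃ u v : ℕ, u < n ∧ v < n ∧ nz m s r u v = true}.ncard ≤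
      ∑ e ∈ K, {r : List Bool | r.length = m * m * s ∧ nz m s r e.1 e.2 = true}.ncard := by
    refine (Set.ncard_le_ncard hsub ?_).trans ?_
    · exact Set.Finite.biUnion K.finite_toSet fun e _ => hfin e
    · clear hsub hKc
      induction K using Finset.induction_on with
      | empty => simp
      | insert e K he ih =>
        rw [Finset.set_biUnion_insert, sum_insert he]
        exact (Set.ncard_union_le _ _).trans (Nat.add_le_add_left ih _)
  have h2 : ∀ e ∈ K, {r : List Bool | r.length = m * m * s ∧ nz m s r e.1 e.2 = true}.ncard *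
      2 ^ s ≤ 2 ^ (m * m * s) := by
    intro e he
    have hlt : e.1 < m ∧ e.2 < m := by
      rw [hK, mem_product, mem_range, mem_range] at he
      omega
    refine NH.block_le (m * m * s) ((e.1 * m + e.2) * s) s ?_
    have h3 : e.1 * m + e.2 + 1 ≤ m * m := by
      calc e.1 * m + e.2 + 1 ≤ e.1 * m + m := by omega
        _ = (e.1 + 1) * m := by ring
        _ ≤ m * m := Nat.mul_le_mul_right _ hlt.1
    calc (e.1 * m + e.2) * s + s = (e.1 * m + e.2 + 1) * s := by ring
      _ ≤ m * m * s := Nat.mul_le_mul_right _ h3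
  calc _ ≤ (∑ e ∈ K, {r : List Bool | r.length = m * m * s ∧ nz m s r e.1 e.2 = true}.ncard) *
        2 ^ s := Nat.mul_le_mul_right _ h1
    _ = ∑ e ∈ K, {r : List Bool | r.length = m * m * s ∧ nz m s r e.1 e.2 = true}.ncard * 2 ^ s :=
        sum_mul _ _ _
    _ ≤ ∑ _e ∈ K, 2 ^ (m * m * s) := sum_le_sum h2
    _ = K.card * 2 ^ (m * m * s) := by rw [sum_const, smul_eq_mul]
    _ ≤ n * n * 2 ^ (m * m * s) := Nat.mul_le_mul_right _ hKc

end Pool.Agent.J4H23.VD
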