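import Pool.Agent.J4H23.SB.Stm
import Pool.Agent.J4H23.SB.Nh

/-!
# Weighted vertex cover with noise: definitions and pieces

PROJECT VD (helper23), row MP_cff830_lc (hard x10).  THEOREM (a dichotomy for the smoothed complexity of weighted
vertex cover):
(A) noise of constant density `l > 0`: for all `N`, `k` there is a deterministic polynomial-time
algorithm which with probability `≥ 1 - m ^ (- k)` over the noise finds for ALL supergraphs and ALL weights
a vertex cover of weight at most `(1 + 1 / N) OPT`;
(B) noise of density `m ^ (- 1 / k)` does not help: a randomised `c`-approximation for all noisy hosts gives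
a randomised `c`-approximation for all weighted graphs.

Proof of (A): the independent sets have at most `L = C log m` vertices; look for the best independent set
among the `K = L (N + 1)` heaviest vertices (`2 ^ K` is polynomial).  Proof of (B): put `G` into the corner of
a host whose other vertices have weight zero.
-/

set_option autoImplicit false

namespace Pool.Agent.J4H23.VD

open Finset Pool.Agent.NPC Pool.Agent.H49R2.PC Pool.Agent.J4H63.DB Pool.Agent.J4H23.SB

/-- Weighted graphs: the list of the vertices, each with its weight, and the list of the edges. -/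
abbrev WG : Type := List (ℕ × ℕ) × List (ℕ × ℕ)

/-- The vertices. -/
def vs (G : WG) : List ℕ := G.1.map Prod.fst

/-- `G` is a finite simple weighted graph: the vertices are distinct, and every edge joins two
different vertices. -/
def IsWG (G : WG) : Prop := (vs G).Nodup ∧ ∀ e ∈ G.2, e.1 ∈ vs G ∧ e.2 ∈ vs G ∧ e.1 ≠ e.2

/-- `C` is a vertex cover of `G`. -/
def IsCover (G : WG) (C : List ℕ) : Prop := ∀ e ∈ G.2, e.1 ∈ C ∨ e.2 ∈ C

/-- The sum of the weights of the vertices of `G` in `C`. -/
def wgt (G : WG) (C : List ℕ) : ℕ := ((G.1.filter (fun p => decide (p.1 ∈ C))).map Prod.snd).sum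

/-- `C` is a vertex cover of `G` and its weight is at most `c` times the weight of any other one. -/
def Appr (c : ℝ) (G : WG) (C : List ℕ) : Prop :=
  IsCover G C ∧ ∀ D, IsCover G D → (wgt G C : ℝ) ≤ c * wgt G D

/-! ## (A) the algorithm for graphs with small independence number -/

/-- `p` is before `v` in the order of decreasing weights -/
def before (p v : ℕ × ℕ) : Bool := decide (v.2 < p.2) || (decide (p.2 = v.2) && decide (p.1 < v.1))

/-- the `K` heaviest vertices -/
def top (G : WG) (K : ℕ) : List ℕ :=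
  ((G.1.filter (fun v => decide ((G.1.filter (fun p => before p v)).length < K))).map Prod.fst).take K

/-- the covers whose complement is a set of heavy vertices -/
def cands (G : WG) (K : ℕ) : List (List ℕ) :=
  ((enum [] (top G K).length (top G K) []).map
    (fun s => (vs G).filter (fun v => !decide (v ∈ s.1)))).filter
    (fun C => G.2.all (fun e => decide (e.1 ∈ C) || decide (e.2 ∈ C)))

/-- the lightest of these covers -/
def algV (G : WG) (K : ℕ) : List ℕ :=
  ((cands G K).filter (fun C => (cands G K).all (fun D => decide (wgt G C ≤ wgt G D)))).headD []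

/-- the algorithm -/
def alg (D : ℕ) (G : WG) : List ℕ := algV G (D * G.1.length.size)

/-- The graph with the vertices `0, …, m - 1`, the weights `w` and the edges `(i, j)`, `i < j`, in `Y`. -/
def wgF (m : ℕ) (Y : Finset (Fin m × Fin m)) (w : Fin m → ℕ) : WG :=
  ((List.finRange m).map (fun i => (i.val, w i)),
    (((List.finRange m) ×ˢ (List.finRange m)).filter (fun e => e ∈ Y ∧ e.1 < e.2)).map
      (fun e => (e.1.val, e.2.val)))

/-- (APL) polynomial time, for each fixed `D`: `2 ^ K ≤ (2 n + 1) ^ D` -/
def S_APL : Prop := ∀ D : ℕ, NPC.Poly (alg D)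

/-- (ACO) the algorithm is correct: if `t` is the largest weight outside of the `K` heaviest vertices `T` and `I` is a
heaviest independent set, then `w (I \ T) ≤ L t` and `OPT ≥ w (T \ I) ≥ (K - L) t` -/
def S_ACO : Prop := ∀ (G : WG) (L N K : ℕ), IsWG G → 1 ≤ N → L * (N + 1) ≤ K →
  (∀ I : Finset ℕ, I ⊆ (vs G).toFinset → (∀ e ∈ G.2, ¬ (e.1 ∈ I ∧ e.2 ∈ I)) → I.card ≤ L) →
  Appr (1 + 1 / N) G (algV G K)

/-- (AIN) the independent sets of `wgF` -/
def S_AIN : Prop := ∀ (m : ℕ) (Y : Finset (Fin m × Fin m)) (w : Fin m → ℕ) (L : ℕ),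
  (∀ A : Finset (Fin m), (∀ u ∈ A, ∀ v ∈ A, u < v → (u, v) ∉ Y) → A.card ≤ L) →
  IsWG (wgF m Y w) ∧ (wgF m Y w).1.length = m ∧
  ∀ I : Finset ℕ, I ⊆ (vs (wgF m Y w)).toFinset →
    (∀ e ∈ (wgF m Y w).2, ¬ (e.1 ∈ I ∧ e.2 ∈ I)) → I.card ≤ L

/-- (APR) random graphs have no large independent sets; with `t_AVO` of `J4H28.SB.Avo` and
`(m choose t) (1 - l) ^ (t (t - 1) / 2) ≤ (m exp (- l (t - 1) / 2)) ^ t`, `t = C * m.size + 1` -/
def S_APR : Prop := ∀ (l : ℝ) (k : ℕ), 0 < l → l ≤ 1 → ∃ C m₀ : ℕ, ∀ m ≥ m₀,
  ∀ q : Fin m × Fin m → ℝ, (∀ e, l ≤ q e ∧ q e ≤ 1) → 1 - 1 / (m : ℝ) ^ k ≤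
    pr q (fun X => ∀ A : Finset (Fin m), (∀ u ∈ A, ∀ v ∈ A, u < v → (u, v) ∉ X) →
      A.card ≤ C * m.size)

/-! ## (B) the reduction -/

/-- The host graph `H` on the vertices `0, …, m - 1` with the weights `w` and the noise given by the
string `r`: the pair `i < j` is an edge if `(i, j)` is in `H` or if its block of `J` bits in `r`
has only ones. -/
def wn (m : ℕ) (H : List (ℕ × ℕ)) (w : List ℕ) (J : ℕ) (r : List Bool) : WG :=
  ((List.range m).map (fun i => (i, w.getD i 0)),
    (prodL (List.range m) (List.range m)).filter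
      (fun e => decide (e.1 < e.2) && (decide (e ∈ H) || nz m J r e.1 e.2)))

/-- A randomised `c`-approximation for weighted vertex cover on all hosts with noise: `m = 2 ^ (k s)`, every pair is
an edge of the noise with probability `2 ^ (- s) = m ^ (- 1 / k)`; the weights have at most `b` bits;
success probability at least `9 / 10` over the noise and the random bits. -/
def SmoothedApprox (k : ℕ) (c : ℝ) : Prop :=
  ∃ (F : WG × List Bool → List ℕ) (A : List Bool → List Bool) (p : Polynomial ℕ),
    PolyTime A ∧ (∀ x, A (bits x) = bits (F x)) ∧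
    ∀ (s m : ℕ), m = 2 ^ (k * s) → ∀ (H : List (ℕ × ℕ)) (b : ℕ) (w : List ℕ),
      (∀ x ∈ w, x < 2 ^ b) →
      9 * 2 ^ (m * m * s + p.eval (m + b)) ≤
        10 * {x : List Bool × List Bool | x.1.length = m * m * s ∧
          x.2.length = p.eval (m + b) ∧
          Appr c (wn m H w s x.1) (F (wn m H w s x.1, x.2))}.ncard

/-- A randomised polynomial-time `c`-approximation for weighted vertex cover on all graphs; success
probability at least `3 / 4`. -/
def RandApprox (c : ℝ) : Prop :=
  ∃ (F : WG × List Bool → List ℕ) (A : List Bool → List Bool) (p : Polynomial ℕ),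
    PolyTime A ∧ (∀ x, A (bits x) = bits (F x)) ∧
    ∀ G, IsWG G → 3 * 2 ^ p.eval (bits G).length ≤
      4 * {r : List Bool | r.length = p.eval (bits G).length ∧ Appr c G (F (G, r))}.ncard

/-- the parameter `s` -/
def st (G : WG) : ℕ := (100 * (G.1.length + 1) ^ 2).size

/-- `G` as a host graph -/
def em (G : WG) : List (ℕ × ℕ) :=
  (prodL (List.range G.1.length) (List.range G.1.length)).filter
    (fun e => decide (((vs G).getD e.1 0, (vs G).getD e.2 0) ∈ G.2) ||
      decide (((vs G).getD e.2 0, (vs G).getD e.1 0) ∈ G.2))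

/-- the weights -/
def wl (G : WG) : List ℕ := G.1.map Prod.snd

/-- back to the vertices of `G` -/
def back (G : WG) (C : List ℕ) : List ℕ :=
  (C.filter (fun i => decide (i < G.1.length))).map (fun i => (vs G).getD i 0)

/-- the reduction, `m = 2 ^ (k s)` -/
def redAux (F : WG × List Bool → List ℕ) (m s P : ℕ) (G : WG) (r : List Bool) : List ℕ :=
  back G (F (wn m (em G) (wl G) s (r.take (m * m * s)), (r.drop (m * m * s)).take P))

/-- the reduction -/
def red (F : WG × List Bool → List ℕ) (p : Polynomial ℕ) (k : ℕ) (x : WG × List Bool) : List ℕ :=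
  redAux F (2 ^ (k * st x.1)) (st x.1) (p.eval (2 ^ (k * st x.1) + (wl x.1).sum.size)) x.1 x.2

/-- (BPL) the reduction runs in polynomial time (as `J4H23.NH.t_PLY`) -/
def S_BPL : Prop := ∀ (F : WG × List Bool → List ℕ) (p : Polynomial ℕ) (k : ℕ),
  NPC.Poly F → NPC.Poly (red F p k)

/-- (BID) if no edge of the noise is inside `G` -/
def S_BID : Prop := ∀ (G : WG) (m s : ℕ) (r : List Bool) (c : ℝ) (C : List ℕ), IsWG G →
  G.1.length ≤ m → 0 ≤ c →
  (∀ u v : ℕ, u < G.1.length → v < G.1.length → nz m s r u v = false) →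
  Appr c (wn m (em G) (wl G) s r) C → Appr c G (back G C)

/-- (BTC) the noise seldom has edges inside `n` vertices -/
def S_BTC : Prop := ∀ m s n : ℕ, n ≤ m →
  {r : List Bool | r.length = m * m * s ∧
    ∃ u v : ℕ, u < n ∧ v < n ∧ nz m s r u v = true}.ncard * 2 ^ s ≤ n * n * 2 ^ (m * m * s)

end Pool.Agent.J4H23.VD
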